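import Pool.Agent.N299.ND.Stm

/-!
Project ND, task TI: completely positive maps dominated by an approximate identity map are
approximately multiplication.
-/

set_option autoImplicit false

open scoped BoundedContinuousFunction Topology Matrix.Norms.L2Operator
open Filter

noncomputable section

namespace Pool.Agent.N591.ND

open Pool.Agent.N299 Pool.Agent.N299.DT Pool.Agent.N299.ND

section

variable {B : Type} [CStarAlgebra B] {I : Submodule ℂ B} {T : B →ₗ[ℂ] B}

lemma cpi_one (hT : CPI I T) {a : B} (ha : a ∈ I) : Pos (T (star a * a)) := by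
  have h := hT 1 (fun _ => a) (fun _ => 1) (fun _ => ha)
  simpa using h

lemma cpi_two (hT : CPI I T) {a b : B} (ha : a ∈ I) (hb : b ∈ I) (v w : B) :
    Pos (star v * T (star a * a) * v + star v * T (star a * b) * w +
      (star w * T (star b * a) * v + star w * T (star b * b) * w)) := by
  have h := hT 2 ![a, b] ![v, w] (by
    intro i
    fin_cases i
    · exact ha
    · exact hb)
  simpa [Fin.sum_univ_two] using h

lemma cpi_star (hT : CPI I T) {a b : B} (ha : a ∈ I) (hb : b ∈ I) :
    star (T (star a * b)) = T (star b * a) := by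
  have ha1 := (cpi_one hT ha).sa
  have hb1 := (cpi_one hT hb).sa
  have h1 := (cpi_two hT ha hb 1 1).sa
  have h2 := (cpi_two hT ha hb 1 (Complex.I • 1)).sa
  simp only [star_one, one_mul, mul_one, star_add, ha1, hb1] at h1
  have h1' : star (T (star a * b)) + star (T (star b * a)) = T (star a * b) + T (star b * a) := by
    have := h1
    rw [add_assoc, add_assoc, add_left_cancel_iff, ← add_assoc, ← add_assoc,
      add_right_cancel_iff] at this
    exact this
  have e1 : star (Complex.I • (1 : B)) = -(Complex.I • (1 : B)) := by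
    rw [star_smul, star_one, RCLike.star_def, Complex.conj_I, neg_smul]
  simp only [star_one, one_mul, mul_one, star_add, ha1, hb1, e1, star_neg, mul_smul_comm,
    smul_mul_assoc, neg_mul, smul_neg, neg_neg, smul_smul, Complex.I_mul_I, neg_smul,
    one_smul] at h2
  have e3 : ∀ Y : B, star (Complex.I • Y) = -(Complex.I • star Y) := by
    intro Y
    rw [star_smul, RCLike.star_def, Complex.conj_I, neg_smul]
  rw [e3, e3] at h2
  have h2' : Complex.I • star (T (star b * a)) - Complex.I • star (T (star a * b)) =
      Complex.I • T (star a * b) - Complex.I • T (star b * a) := by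
    have h3 := sub_eq_zero.2 h2
    rw [← sub_eq_zero, ← h3]
    abel
  rw [← smul_sub, ← smul_sub] at h2'
  have h3 := congrArg (fun z => (-Complex.I) • z) h2'
  simp only [smul_smul, neg_mul, Complex.I_mul_I, neg_neg, one_smul] at h3
  have h4 : (2 : ℂ) • star (T (star a * b)) = (2 : ℂ) • T (star b * a) := by
    rw [two_smul, two_smul]
    have h5 : star (T (star a * b)) + star (T (star a * b)) =
      (star (T (star a * b)) + star (T (star b * a))) -
        (star (T (star b * a)) - star (T (star a * b))) := by abel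
    rw [h5, h1', h3]
    abel
  exact smul_right_injective B (two_ne_zero : (2 : ℂ) ≠ 0) h4

lemma cpi_three (hT : CPI I T) {a b c : B} (ha : a ∈ I) (hb : b ∈ I) (hc : c ∈ I) (u v w : B) :
    Pos (star u * T (star a * a) * u + star u * T (star a * b) * v + star u * T (star a * c) * w +
      (star v * T (star b * a) * u + star v * T (star b * b) * v + star v * T (star b * c) * w) +
      (star w * T (star c * a) * u + star w * T (star c * b) * v +
        star w * T (star c * c) * w)) := by
  have h := hT 3 ![a, b, c] ![u, v, w] (by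
    intro i
    fin_cases i
    · exact ha
    · exact hb
    · exact hc)
  simpa [Fin.sum_univ_three] using h

end

lemma norm_le_of_pos_sub {B : Type} [CStarAlgebra B] {x y : B} (hx : Pos x) (h : Pos (y - x)) :
    ‖x‖ ≤ ‖y‖ := by
  let _ : PartialOrder B := CStarAlgebra.spectralOrder B
  let _ : StarOrderedRing B := CStarAlgebra.spectralOrderedRing B
  rw [pos_iff] at hx h
  exact CStarAlgebra.norm_le_norm_of_nonneg_of_le hx (sub_nonneg.1 h)

lemma norm_le_one_of_pos {B : Type} [CStarAlgebra B] {x : B} (hx : Pos x) (h : Pos (1 - x)) :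
    ‖x‖ ≤ 1 := by
  let _ : PartialOrder B := CStarAlgebra.spectralOrder B
  let _ : StarOrderedRing B := CStarAlgebra.spectralOrderedRing B
  rw [pos_iff] at hx h
  exact (CStarAlgebra.norm_le_one_iff_of_nonneg x hx).2 (sub_nonneg.1 h)

lemma pos_one_sub {B : Type} [CStarAlgebra B] {x : B} (hx : Pos x) (h : ‖x‖ ≤ 1) :
    Pos (1 - x) := by
  let _ : PartialOrder B := CStarAlgebra.spectralOrder B
  let _ : StarOrderedRing B := CStarAlgebra.spectralOrderedRing B
  rw [pos_iff] at hx ⊢
  exact sub_nonneg.2 ((CStarAlgebra.norm_le_one_iff_of_nonneg x hx).1 h)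

lemma core {B : Type} [CStarAlgebra B] {I : Submodule ℂ B} (hI : Idl I) {T T' : B →ₗ[ℂ] B}
    (hT : CPI I T) (hT' : CPI I T') (hn : ∀ a ∈ I, ‖T a‖ ≤ ‖a‖) {C δ : ℝ} {e x : B}
    (hδ : 0 < δ) (hδ1 : δ ≤ 1) (he : e ∈ I) (hep : Pos e) (he1 : Pos (1 - e)) (hx : x ∈ I)
    (hC : ‖x‖ ≤ C) (hex : ‖e * x - x‖ ≤ δ)
    (h1 : ‖T (e * e) + T' (e * e) - e * e‖ ≤ δ) (h2 : ‖T (e * x) + T' (e * x) - e * x‖ ≤ δ)
    (h3 : ‖T (star x * e) + T' (star x * e) - star x * e‖ ≤ δ)
    (h4 : ‖T (star x * x) + T' (star x * x) - star x * x‖ ≤ δ) :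
    ‖T (e * e) * x - T (e * x)‖ ^ 2 ≤ 2 * δ * (1 + C) ^ 2 := by
  have hC0 : 0 ≤ C := (norm_nonneg x).trans hC
  have hes : star e = e := hep.sa
  have hne : ‖e‖ ≤ 1 := norm_le_one_of_pos hep he1
  have hee : Pos (T (e * e)) := by
    have := cpi_one hT he
    rwa [hes] at this
  have heeI : e * e ∈ I := hI.mulL e he e
  have hee1 : Pos (1 - T (e * e)) := by
    refine pos_one_sub hee ((hn _ heeI).trans ((norm_mul_le _ _).trans ?_))
    calc ‖e‖ * ‖e‖ ≤ 1 * 1 := mul_le_mul hne hne (norm_nonneg _) zero_le_one
      _ = 1 := one_mul 1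
  set q : (B →ₗ[ℂ] B) → B := fun S => star x * S (e * e) * x - star x * S (e * x) -
    S (star x * e) * x + S (star x * x) with hq
  have hqpos : ∀ S : B →ₗ[ℂ] B, CPI I S → Pos (q S) := by
    intro S hS
    have := cpi_two hS he hx x (-1)
    rw [hes] at this
    have e1 : star x * S (e * e) * x + star x * S (e * x) * -1 +
        (star (-1) * S (star x * e) * x + star (-1) * S (star x * x) * -1) = q S := by
      simp only [hq, star_neg, star_one, mul_neg, neg_mul, mul_one, one_mul, neg_neg]
      abel
    rwa [e1] at this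
  have hsum : q T + q T' = star (e * x - x) * (e * x - x) +
      (star x * (T (e * e) + T' (e * e) - e * e) * x -
        star x * (T (e * x) + T' (e * x) - e * x) -
        (T (star x * e) + T' (star x * e) - star x * e) * x +
        (T (star x * x) + T' (star x * x) - star x * x)) := by
    simp only [hq, star_sub, star_mul, hes]
    noncomm_ring
  have hnx : ‖star x‖ ≤ C := by rwa [norm_star]
  have hqn : ‖q T + q T'‖ ≤ 2 * δ * (1 + C) ^ 2 := by
    rw [hsum]
    have b0 : ‖star (e * x - x) * (e * x - x)‖ ≤ δ := by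
      rw [CStarRing.norm_star_mul_self]
      calc ‖e * x - x‖ * ‖e * x - x‖ ≤ δ * 1 :=
            mul_le_mul hex (hex.trans hδ1) (norm_nonneg _) hδ.le
        _ = δ := mul_one δ
    have b1 : ‖star x * (T (e * e) + T' (e * e) - e * e) * x‖ ≤ C * δ * C := by
      refine (norm_mul_le _ _).trans ?_
      refine mul_le_mul ((norm_mul_le _ _).trans ?_) hC (norm_nonneg _) (by positivity)
      exact mul_le_mul hnx h1 (norm_nonneg _) hC0
    have b2 : ‖star x * (T (e * x) + T' (e * x) - e * x)‖ ≤ C * δ :=
      (norm_mul_le _ _).trans (mul_le_mul hnx h2 (norm_nonneg _) hC0)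
    have b3 : ‖(T (star x * e) + T' (star x * e) - star x * e) * x‖ ≤ δ * C :=
      (norm_mul_le _ _).trans (mul_le_mul h3 hC (norm_nonneg _) hδ.le)
    refine (norm_add_le _ _).trans ?_
    have b5 : ‖star x * (T (e * e) + T' (e * e) - e * e) * x -
        star x * (T (e * x) + T' (e * x) - e * x) -
        (T (star x * e) + T' (star x * e) - star x * e) * x +
        (T (star x * x) + T' (star x * x) - star x * x)‖ ≤ C * δ * C + C * δ + δ * C + δ := by
      refine (norm_add_le _ _).trans (add_le_add ?_ h4)
      refine (norm_sub_le _ _).trans (add_le_add ?_ b3)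
      exact (norm_sub_le _ _).trans (add_le_add b1 b2)
    have b6 : 0 ≤ δ * C := by positivity
    have b7 : 0 ≤ δ * C ^ 2 := by positivity
    nlinarith
  have hqT : ‖q T‖ ≤ 2 * δ * (1 + C) ^ 2 := by
    refine (norm_le_of_pos_sub (hqpos T hT) ?_).trans hqn
    rw [add_sub_cancel_left]
    exact hqpos T' hT'
  set D : B := T (e * e) * x - T (e * x) with hD
  have hDs : star D = star x * T (e * e) - T (star x * e) := by
    rw [hD, star_sub, star_mul, hee.sa]
    have := cpi_star hT he hx
    rw [hes] at this
    rw [this]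
  have hp := cpi_three hT he he hx (-D) x (-1)
  rw [hes] at hp
  have e1 : star (-D) * T (e * e) * -D + star (-D) * T (e * e) * x + star (-D) * T (e * x) * -1 +
      (star x * T (e * e) * -D + star x * T (e * e) * x + star x * T (e * x) * -1) +
      (star (-1) * T (star x * e) * -D + star (-1) * T (star x * e) * x +
        star (-1) * T (star x * x) * -1) =
      star D * T (e * e) * D - star D * D - star D * D + q T := by
    have a1 : star D * D = star D * T (e * e) * x - star D * T (e * x) := by
      nth_rewrite 2 [hD]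
      noncomm_ring
    have a2 : star D * D = star x * T (e * e) * D - T (star x * e) * D := by
      nth_rewrite 1 [hDs]
      noncomm_ring
    have a3 : star D * T (e * e) * D - star D * D - star D * D + q T =
      star D * T (e * e) * D - (star D * T (e * e) * x - star D * T (e * x)) -
        (star x * T (e * e) * D - T (star x * e) * D) + q T := by
      rw [← a1, ← a2]
    rw [a3]
    simp only [hq, star_neg, star_one]
    noncomm_ring
  rw [e1] at hp
  have hp2 : Pos (star D * (1 - T (e * e)) * D) := hee1.conj D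
  have hp3 : Pos (q T - star D * D) := by
    have := hp.add hp2
    have e2 : star D * T (e * e) * D - star D * D - star D * D + q T +
      star D * (1 - T (e * e)) * D = q T - star D * D := by
      noncomm_ring
    rwa [e2] at this
  have := norm_le_of_pos_sub (pos_star_mul D) hp3
  rw [CStarRing.norm_star_mul_self] at this
  rw [sq]
  exact this.trans hqT

lemma sq_bound {C δ z : ℝ} (hC : 0 ≤ C) (hδ : 0 < δ) (hδ1 : δ ≤ 1) (hz : 0 ≤ z)
    (h : z ^ 2 ≤ 2 * δ * (1 + C) ^ 2) : δ + z ≤ 3 * (1 + C) * Real.sqrt δ := by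
  have hs : Real.sqrt δ ^ 2 = δ := Real.sq_sqrt hδ.le
  have hs0 : 0 ≤ Real.sqrt δ := Real.sqrt_nonneg δ
  have hs1 : Real.sqrt δ ≤ 1 := by
    exact (Real.sqrt_le_sqrt hδ1).trans_eq Real.sqrt_one
  have h1 : z ≤ 2 * (1 + C) * Real.sqrt δ := by
    refine abs_le_of_sq_le_sq' ?_ (by positivity) |>.2
    have : (2 * (1 + C) * Real.sqrt δ) ^ 2 = 4 * (1 + C) ^ 2 * δ := by
      rw [mul_pow, hs]; ring
    rw [this]
    nlinarith [mul_nonneg hδ.le (sq_nonneg (1 + C))]
  have h2 : δ ≤ (1 + C) * Real.sqrt δ := by
    have : δ = Real.sqrt δ * Real.sqrt δ := by rw [← sq, hs]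
    calc δ = Real.sqrt δ * Real.sqrt δ := this
      _ ≤ (1 + C) * Real.sqrt δ := mul_le_mul_of_nonneg_right (by linarith) hs0
  linarith

theorem t_TI : S_TI := by
  intro B _ I hI T T' hT hT' hn C δ e x hδ hδ1 he hep he1 hx hC hex hxe hy
  have hC0 : 0 ≤ C := (norm_nonneg x).trans hC
  have hes : star e = e := hep.sa
  have m1 := hy (e * e) (by simp)
  have m2 := hy (e * x) (by simp)
  have m3 := hy (star x * e) (by simp)
  have m4 := hy (star x * x) (by simp)
  have m5 := hy (x * e) (by simp)
  have m6 := hy (e * star x) (by simp)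
  have m7 := hy (x * star x) (by simp)
  constructor
  · have h := core hI hT hT' hn hδ hδ1 he hep he1 hx hC hex m1 m2 m3 m4
    have e1 : T x - T (e * e) * x = -(T (e * x - x)) - (T (e * e) * x - T (e * x)) := by
      rw [map_sub]; abel
    rw [e1]
    refine (norm_sub_le _ _).trans ?_
    rw [norm_neg]
    refine le_trans (add_le_add_left ((hn _ (I.sub_mem (hI.mulL x hx e) hx)).trans hex) _) ?_
    exact sq_bound hC0 hδ hδ1 (norm_nonneg _) h
  · have hxs : star x ∈ I := hI.star x hx
    have hC' : ‖star x‖ ≤ C := by rwa [norm_star]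
    have hex' : ‖e * star x - star x‖ ≤ δ := by
      have : e * star x - star x = star (x * e - x) := by rw [star_sub, star_mul, hes]
      rw [this, norm_star]
      exact hxe
    have h := core hI hT hT' hn hδ hδ1 he hep he1 hxs hC' hex' m1 m6
      (by rw [star_star]; exact m5) (by rw [star_star]; exact m7)
    have hee : Pos (T (e * e)) := by
      have := cpi_one hT he
      rwa [hes] at this
    have e2 : star (T (e * star x)) = T (x * e) := by
      have := cpi_star hT he hxs
      rw [hes, star_star] at this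
      exact this
    have e1 : T x - x * T (e * e) = -(T (x * e - x)) - star (T (e * e) * star x -
        T (e * star x)) := by
      rw [map_sub, star_sub, star_mul, star_star, hee.sa, e2]; abel
    rw [e1]
    refine (norm_sub_le _ _).trans ?_
    rw [norm_neg, norm_star]
    refine le_trans (add_le_add_left ((hn _ (I.sub_mem (hI.mulR x hx e) hx)).trans hxe) _) ?_
    exact sq_bound hC0 hδ hδ1 (norm_nonneg _) h

end Pool.Agent.N591.ND
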